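import Pool.Agent.W_cf9a97_h77.Gr

/-!
# MP_cf9a97_al: centralizers of elements with nonzero depth one part

In the free Lie algebra on `x, y` with the Ihara bracket, the centralizer of an element `σ` of top
degree `n ≥ 2` with `(σ | x^(n - 1) y) ≠ 0` is spanned by `σ`, `x` and `y`. Hence the centralizer of
such an element in grt or in ds is the line spanned by it, as it has to be if these Lie algebras
are free.
-/

set_option autoImplicit false

namespace Pool.Agent.Results.MP_cf9a97_al.Centralizer

open Pool.Agent.W_cf9a97_h77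

theorem result (n : ℕ) (hn : 2 ≤ n) (σ : Ih)
    (hσ : ∀ w : List (Fin 2), n < w.length → cf w σ.val = 0) (hc : cf (xy n) σ.val ≠ 0) (ψ : Ih) :
    ⁅σ, ψ⁆ = 0 ↔ ∃ a b c : ℚ, ψ.val = a • σ.val + b • xx + c • yy := by
  constructor
  · intro h
    obtain ⟨M, hM⟩ := exists_Low ψ.val
    have h1 : ib σ.val ψ.val = 0 := by
      rw [← Ih.val_lie, h, Ih.val_zero]
    have hσ' : σ.val ∈ Low n := fun w hw => hσ w (by omega)
    have h2 := cent_gen hn σ.mem hσ' hc M ψ.val ψ.mem hM h1
    rw [Submodule.mem_span_insert] at h2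
    obtain ⟨a, z, hz, h3⟩ := h2
    rw [Submodule.mem_span_pair] at hz
    obtain ⟨b, c, hz⟩ := hz
    exact ⟨a, b, c, by rw [h3, ← hz, add_assoc]⟩
  · rintro ⟨a, b, c, h⟩
    apply Ih.ext
    rw [Ih.val_lie, Ih.val_zero, h, ib_add_right, ib_add_right, ib_smul_right, ib_smul_right,
      ib_smul_right, ib_self, ib_xx, ib_yy, smul_zero, smul_zero, smul_zero, add_zero, add_zero]

end Pool.Agent.Results.MP_cf9a97_al.Centralizer
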