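import Pool.Agent.W_cf9a97_h77.Gr

/-!
# MP_cf9a97_al: no relation of length `r` in degree below `m (r + 2)`

Let `m ≥ 3` be odd and for every odd `n ≥ m` let `ψ_n` be a homogeneous element of degree `n` of the
free Lie algebra on `x, y` with `(ψ_n | x^(n - 1) y) ≠ 0`. A combination of brackets in the letters
`s_n`, all of length at least `r + 1` and degree below `m (r + 3)`, which becomes zero in the Ihara
Lie algebra after `s_n ↦ ψ_n` is zero.
-/

set_option autoImplicit false

namespace Pool.Agent.Results.MP_cf9a97_al.NoEarlyRelation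

open Pool.Agent.W_cf9a97_h77

/-- The odd integers `≥ m`. -/
abbrev OddGe (m : ℕ) : Type := {k : ℕ // Odd k ∧ m ≤ k}

/-- The free Lie algebra on `s_m, s_(m+2), s_(m+4), ...`. -/
abbrev Lge (m : ℕ) : Type := FreeLieAlgebra ℚ (OddGe m)

/-- All words of `z` have degree below `N`, where the letter `s_k` has degree `k`. -/
def DegLt (m N : ℕ) (z : Lge m) : Prop :=
  emb (OddGe m) z ∈ Sup (fun w : List (OddGe m) => (w.map (fun k : OddGe m => k.val)).sum < N)

theorem result (m : ℕ) (hm : Odd m) (h3 : 3 ≤ m) (ψ : OddGe m → Ih)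
    (hh : ∀ k : OddGe m, (ψ k).val ∈ Hom (Fin 2) (k : ℕ))
    (hc : ∀ k : OddGe m, cf (xy k) (ψ k).val ≠ 0) (r : ℕ) (z : Lge m)
    (hr : z ∈ LieModule.lowerCentralSeries ℚ (Lge m) (Lge m) r)
    (hz : DegLt m (m * (r + 3)) z) (h : FreeLieAlgebra.lift ℚ ψ z = 0) : z = 0 := by
  classical
  refine free_edge (n := fun k : OddGe m => k.val) m hm (by omega) Subtype.val_injective
    (fun k => k.2.2) (fun k => k.2.1) hh hc (r + 1) z ?_ h
  intro w hw
  have h1 := emb_lcs r z hr
  by_cases h2 : r + 1 ≤ w.length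
  · refine hz w (fun h4 => hw ⟨h2, ?_⟩)
    have h5 : r + 1 + 2 = r + 3 := by omega
    rw [h5]
    exact h4
  · exact h1 w h2

end Pool.Agent.Results.MP_cf9a97_al.NoEarlyRelation
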