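import Pool.Agent.W_cf9a97_h77.Gr

/-!
# MP_cf9a97_al: small families of elements with nonzero depth one part generate freely

`Ih` is the free Lie algebra on `x, y` with the Ihara bracket; grt and ds are Lie subalgebras of
it. Let `ψ_1, ..., ψ_t` be homogeneous elements of `Ih` of pairwise distinct degrees `n_i ≥ 2` with
`(ψ_i | x^(n_i - 1) y) ≠ 0`. If `t ≤ n_i` for all `i`, they generate freely a free Lie algebra.
So a homomorphism from `L^mot` with nonzero depth one parts is injective on the Lie subalgebra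
generated by the `s_k`, `k ∈ A`, whenever the number of elements of `A` is at most `min A`.
-/

set_option autoImplicit false

namespace Pool.Agent.Results.MP_cf9a97_al.SmallFamiliesFree

open Pool.Agent.W_cf9a97_h77

/-- The odd integers `≥ 3`. -/
abbrev Odd3 : Type := {k : ℕ // Odd k ∧ 3 ≤ k}

/-- The Lie algebra `L^mot`, free on `s_3, s_5, s_7, ...`. -/
abbrev Lmot : Type := FreeLieAlgebra ℚ Odd3

/-- The generator `s_k`. -/
noncomputable def s (k : Odd3) : Lmot := FreeLieAlgebra.of ℚ k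

theorem result :
    (∀ (t : ℕ) (n : Fin t → ℕ) (ψ : Fin t → Ih), Function.Injective n → (∀ i, 2 ≤ n i) →
      (∀ i, t ≤ n i) → (∀ i, (ψ i).val ∈ Hom (Fin 2) (n i)) →
      (∀ i, cf (xy (n i)) (ψ i).val ≠ 0) → Function.Injective (FreeLieAlgebra.lift ℚ ψ)) ∧
    (∀ φ : Lmot →ₗ⁅ℚ⁆ Ih, (∀ k : Odd3, (φ (s k)).val ∈ Hom (Fin 2) k) →
      (∀ k : Odd3, cf (xy k) (φ (s k)).val ≠ 0) →
      ∀ A : Finset Odd3, (∀ k ∈ A, A.card ≤ (k : ℕ)) →
        Set.InjOn φ (LieSubalgebra.lieSpan ℚ Lmot (s '' (A : Set Odd3)) : Set Lmot)) := by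
  refine ⟨fun t n ψ hn h2 ht hh hc => ?_, fun φ hh hc A hA => ?_⟩
  · refine free_small hn h2 (fun i => ?_) hh hc
    rw [Nat.card_eq_fintype_card, Fintype.card_fin]
    exact ht i
  · have h1 : Function.Injective
        (FreeLieAlgebra.lift ℚ (fun k : {k // k ∈ A} => φ (s k))) := by
      refine free_small (n := fun k : {k // k ∈ A} => ((k : Odd3) : ℕ)) ?_ ?_ ?_ ?_ ?_
      · intro a b hab
        exact Subtype.ext (Subtype.ext hab)
      · intro k
        have := (k : Odd3).2.2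
        show 2 ≤ ((k : Odd3) : ℕ)
        omega
      · intro k
        rw [Nat.card_eq_fintype_card, Fintype.card_coe]
        exact hA k k.2
      · exact fun k => hh k
      · exact fun k => hc k
    let ι : FreeLieAlgebra ℚ {k // k ∈ A} →ₗ⁅ℚ⁆ Lmot :=
      FreeLieAlgebra.lift ℚ (fun k : {k // k ∈ A} => s k)
    have h2 : φ.comp ι = FreeLieAlgebra.lift ℚ (fun k : {k // k ∈ A} => φ (s k)) := by
      apply FreeLieAlgebra.hom_ext
      intro k
      rw [LieHom.comp_apply, FreeLieAlgebra.lift_of_apply, FreeLieAlgebra.lift_of_apply]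
    have h3 : LieSubalgebra.lieSpan ℚ Lmot (s '' (A : Set Odd3)) ≤ ι.range := by
      refine LieSubalgebra.lieSpan_le.2 ?_
      rintro _ ⟨k, hk, rfl⟩
      exact ⟨FreeLieAlgebra.of ℚ ⟨k, hk⟩, FreeLieAlgebra.lift_of_apply _ _⟩
    intro a ha b hb hab
    obtain ⟨a', ha'⟩ := h3 ha
    obtain ⟨b', hb'⟩ := h3 hb
    have h4 : φ.comp ι a' = φ.comp ι b' := by
      rw [LieHom.comp_apply, LieHom.comp_apply]
      have e1 : ι a' = a := ha'
      have e2 : ι b' = b := hb'
      rw [e1, e2, hab]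
    rw [h2] at h4
    rw [← ha', ← hb', h1 h4]

end Pool.Agent.Results.MP_cf9a97_al.SmallFamiliesFree
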